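import Mathlib

set_option autoImplicit false

open Module

namespace Pool.Agent.Helper442_AD

section Field

variable {k : Type*} [Field k] {A : Type*} [CommRing A] [Algebra k A]

/-- a partial assignment with independent values extends to a basis -/
theorem exists_basis_extend {d : ℕ} [Module.Finite k A] (hd : finrank k A = d) (s : Set (Fin d))
    (f : Fin d → A) (hf : LinearIndepOn k f s) :
    ∃ w : Basis (Fin d) k A, ∀ i ∈ s, w i = f i := by
  classical
  have hf' : LinearIndependent k (fun i : s => f i) := hf
  have hs : LinearIndepOn k id (Set.range (fun i : s => f i)) := hf'.linearIndepOn_id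
  let B := Basis.extend hs
  have : Fintype (hs.extend (Set.subset_univ _)) := FiniteDimensional.fintypeBasisIndex B
  have hcard : Fintype.card (Fin d) = (hs.extend (Set.subset_univ _)).toFinset.card := by
    rw [Fintype.card_fin, Set.toFinset_card, ← finrank_eq_card_basis B, hd]
  have hmaps : s.MapsTo f ((hs.extend (Set.subset_univ _)).toFinset : Set A) := by
    intro i hi
    rw [Set.coe_toFinset]
    exact hs.subset_extend _ ⟨⟨i, hi⟩, rfl⟩
  have hinj : Set.InjOn f s := by
    intro i hi j hj hij
    have := hf'.injective (a₁ := ⟨i, hi⟩) (a₂ := ⟨j, hj⟩) hij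
    exact congrArg Subtype.val this
  obtain ⟨g, hg⟩ := hmaps.exists_equiv_extend_of_card_eq hcard hinj
  let g' : Fin d ≃ (hs.extend (Set.subset_univ _)) := g.trans (Equiv.setCongr (Set.coe_toFinset _))
  refine ⟨B.reindex g'.symm, fun i hi => ?_⟩
  rw [Basis.reindex_apply, Equiv.symm_symm, Basis.extend_apply_self]
  exact hg i hi

/-- the tuple with coordinate matrix `M` -/
noncomputable def tup {d : ℕ} (b : Basis (Fin d) k A) (M : Fin d × Fin d → k) (m : Fin d) : A :=
  ∑ r, M (r, m) • b r

/-- a structure constant of a generic tuple, as a determinant -/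
noncomputable def gpoly {d : ℕ} (b : Basis (Fin d) k A) (i j l : Fin d) :
    MvPolynomial (Fin d × Fin d) k :=
  (Matrix.of fun r m : Fin d => if m = l then
    ∑ a, ∑ c, MvPolynomial.X (a, i) * MvPolynomial.X (c, j) * MvPolynomial.C (b.repr (b a * b c) r)
    else MvPolynomial.X (r, m)).det

theorem gpoly_eval {d : ℕ} (b : Basis (Fin d) k A) (i j l : Fin d) (M : Fin d × Fin d → k) :
    MvPolynomial.eval M (gpoly b i j l) =
      b.det (Function.update (tup b M) l (tup b M i * tup b M j)) := by
  rw [gpoly, RingHom.map_det, Basis.det_apply]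
  congr 1
  ext r m
  rw [RingHom.mapMatrix_apply, Matrix.map_apply, Matrix.of_apply, Basis.toMatrix_apply]
  by_cases h : m = l
  · subst h
    rw [if_pos rfl, Function.update_self]
    simp only [map_sum, map_mul, MvPolynomial.eval_X, MvPolynomial.eval_C]
    simp only [tup, Finset.sum_mul, Finset.mul_sum, map_sum, Finsupp.coe_finsetSum,
      Finset.sum_apply, smul_mul_assoc, mul_smul_comm, map_smul, Finsupp.coe_smul, Pi.smul_apply,
      smul_eq_mul]
    rw [Finset.sum_comm]
    refine Finset.sum_congr rfl fun a _ => Finset.sum_congr rfl fun c _ => ?_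
    ring
  · rw [if_neg h, Function.update_of_ne h, MvPolynomial.eval_X]
    simp [tup, Finsupp.single_apply]

/-- a vector and its square are independent for some vector -/
theorem exists_sq [Infinite k] [Module.Finite k A] (hd : 2 ≤ finrank k A) :
    ∃ u : A, u ≠ 0 ∧ u * u ∉ Submodule.span k {u} := by
  classical
  have : Nontrivial A := Module.nontrivial_of_finrank_pos (R := k) (by omega)
  obtain ⟨x, hx⟩ : ∃ x : A, x ∉ Submodule.span k {(1 : A)} := by
    by_contra hcon
    push Not at hcon
    have h1 : Submodule.span k {(1 : A)} = ⊤ := by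
      rw [eq_top_iff]
      exact fun x _ => hcon x
    have h2 := finrank_span_le_card (R := k) ({(1 : A)} : Set A)
    rw [h1, finrank_top] at h2
    simp at h2
    omega
  have hind : ∀ p q : k, p • (1 : A) + q • x = 0 → p = 0 ∧ q = 0 := by
    intro p q h
    have hq : q = 0 := by
      by_contra hq
      apply hx
      rw [Submodule.mem_span_singleton]
      refine ⟨-(q⁻¹ * p), ?_⟩
      have h2 : q⁻¹ • (p • (1 : A) + q • x) = 0 := by rw [h, smul_zero]
      rw [smul_add, smul_smul, smul_smul, inv_mul_cancel₀ hq, one_smul] at h2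
      rw [neg_smul]
      exact (eq_neg_of_add_eq_zero_right h2).symm
    rw [hq, zero_smul, add_zero] at h
    refine ⟨?_, hq⟩
    rcases smul_eq_zero.1 h with h | h
    · exact h
    · exact absurd h one_ne_zero
  by_cases h : x * x ∈ Submodule.span k {x}
  · obtain ⟨α, hα⟩ := Submodule.mem_span_singleton.1 h
    obtain ⟨c, hc⟩ := Infinite.exists_notMem_finset ({0, -α⁻¹} : Finset k)
    rw [Finset.mem_insert, Finset.mem_singleton, not_or] at hc
    have hc2 : 1 + c * α ≠ 0 := by
      intro h0
      have hα0 : α ≠ 0 := by
        rintro rfl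
        rw [mul_zero, add_zero] at h0
        exact one_ne_zero h0
      apply hc.2
      have : c * α = -1 := by linear_combination h0
      field_simp
      linear_combination this
    refine ⟨1 + c • x, ?_, ?_⟩
    · intro h0
      have := hind 1 c (by rw [one_smul]; exact h0)
      exact one_ne_zero this.1
    · intro h0
      obtain ⟨γ, hγ⟩ := Submodule.mem_span_singleton.1 h0
      have h1 : (1 + c • x) * (1 + c • x) = (1 : k) • (1 : A) + (2 * c + c ^ 2 * α) • x := by
        have h2 : (1 + c • x) * (1 + c • x) = 1 + (2 * c) • x + (c ^ 2) • (x * x) := by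
          simp only [Algebra.smul_def, map_mul, map_pow, map_ofNat]
          ring
        rw [h2, ← hα, smul_smul, add_smul, one_smul, add_assoc]
      have h3 : γ • (1 + c • x) = γ • (1 : A) + (γ * c) • x := by
        rw [smul_add, smul_smul]
      rw [h1, h3] at hγ
      have h4 := hind (γ - 1) (γ * c - (2 * c + c ^ 2 * α)) (by
        rw [sub_smul, sub_smul]
        have : γ • (1 : A) - (1 : k) • (1 : A) + ((γ * c) • x - (2 * c + c ^ 2 * α) • x)
          = (γ • (1 : A) + (γ * c) • x) - ((1 : k) • (1 : A) + (2 * c + c ^ 2 * α) • x) := by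
          abel
        rw [this, hγ, sub_self])
      have h5 : γ = 1 := sub_eq_zero.1 h4.1
      have h6 := h4.2
      rw [h5] at h6
      have h7 : c * (1 + c * α) = 0 := by linear_combination -h6
      rcases mul_eq_zero.1 h7 with h8 | h8
      · exact hc.1 h8
      · exact hc2 h8
  · refine ⟨x, ?_, h⟩
    rintro rfl
    exact hx (Submodule.zero_mem _)

/-- two vectors and their product are independent for some pair -/
theorem exists_pair [Infinite k] [Module.Finite k A] (hd : 3 ≤ finrank k A) :
    ∃ u v : A, u ≠ 0 ∧ v ∉ Submodule.span k {u} ∧ u * v ∉ Submodule.span k {u, v} := by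
  classical
  have : Nontrivial A := Module.nontrivial_of_finrank_pos (R := k) (by omega)
  have hex : ∀ S : Finset A, S.card < finrank k A → ∃ x : A, x ∉ Submodule.span k (S : Set A) := by
    intro S hS
    by_contra hcon
    push Not at hcon
    have h1 : Submodule.span k (S : Set A) = ⊤ := by
      rw [eq_top_iff]
      exact fun x _ => hcon x
    have h2 := finrank_span_finset_le_card (R := k) S
    rw [Set.finrank, h1, finrank_top] at h2
    omega
  obtain ⟨a, ha⟩ := hex {1} (by rw [Finset.card_singleton]; omega)
  obtain ⟨b, hb⟩ := hex {1, a} (lt_of_le_of_lt Finset.card_le_two (by omega))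
  rw [Finset.coe_singleton] at ha
  rw [Finset.coe_insert, Finset.coe_singleton] at hb
  have hind : ∀ p q r : k, p • (1 : A) + q • a + r • b = 0 → p = 0 ∧ q = 0 ∧ r = 0 := by
    intro p q r h
    have hr : r = 0 := by
      by_contra hr
      apply hb
      rw [Submodule.mem_span_pair]
      refine ⟨-(r⁻¹ * p), -(r⁻¹ * q), ?_⟩
      have h2 : r⁻¹ • (p • (1 : A) + q • a + r • b) = 0 := by rw [h, smul_zero]
      rw [smul_add, smul_add, smul_smul, smul_smul, smul_smul, inv_mul_cancel₀ hr, one_smul] at h2
      rw [neg_smul, neg_smul, ← neg_add]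
      exact (eq_neg_of_add_eq_zero_right h2).symm
    rw [hr, zero_smul, add_zero] at h
    have hq : q = 0 := by
      by_contra hq
      apply ha
      rw [Submodule.mem_span_singleton]
      refine ⟨-(q⁻¹ * p), ?_⟩
      have h2 : q⁻¹ • (p • (1 : A) + q • a) = 0 := by rw [h, smul_zero]
      rw [smul_add, smul_smul, smul_smul, inv_mul_cancel₀ hq, one_smul] at h2
      rw [neg_smul]
      exact (eq_neg_of_add_eq_zero_right h2).symm
    rw [hq, zero_smul, add_zero] at h
    refine ⟨?_, hq, hr⟩
    rcases smul_eq_zero.1 h with h | h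
    · exact h
    · exact absurd h one_ne_zero
  by_cases h : a * b ∈ Submodule.span k {1, a, b}
  · obtain ⟨r, s, t, hrst⟩ := Submodule.mem_span_triple.1 h
    have hP : (Polynomial.C r * Polynomial.X ^ 2 - Polynomial.C (s + t) * Polynomial.X
        - Polynomial.C 1 : Polynomial k) ≠ 0 := by
      intro h0
      have := congrArg (Polynomial.eval 0) h0
      simp at this
    obtain ⟨x, hx⟩ := Infinite.exists_notMem_finset
      (insert 0 (Polynomial.C r * Polynomial.X ^ 2 - Polynomial.C (s + t) * Polynomial.X
        - Polynomial.C 1 : Polynomial k).roots.toFinset)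
    rw [Finset.mem_insert, not_or, Multiset.mem_toFinset, Polynomial.mem_roots hP,
      Polynomial.IsRoot.def] at hx
    obtain ⟨hx0, hx1⟩ := hx
    simp only [Polynomial.eval_sub, Polynomial.eval_mul, Polynomial.eval_C, Polynomial.eval_pow,
      Polynomial.eval_X] at hx1
    refine ⟨1 + x • a, 1 + x • b, ?_, ?_, ?_⟩
    · intro h0
      have := hind 1 x 0 (by rw [one_smul, zero_smul, add_zero]; exact h0)
      exact one_ne_zero this.1
    · intro h0
      obtain ⟨p, hp⟩ := Submodule.mem_span_singleton.1 h0
      have h1 := hind (p - 1) (p * x) (-x) (by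
        have : (p - 1) • (1 : A) + (p * x) • a + (-x) • b = p • (1 + x • a) - (1 + x • b) := by
          rw [smul_add, smul_smul, sub_smul, one_smul, neg_smul]
          abel
        rw [this, hp, sub_self])
      exact hx0 (neg_eq_zero.1 h1.2.2)
    · intro h0
      obtain ⟨p, q, hpq⟩ := Submodule.mem_span_pair.1 h0
      have h1 : (1 + x • a) * (1 + x • b) = (1 + x ^ 2 * r) • (1 : A) + (x + x ^ 2 * s) • a
          + (x + x ^ 2 * t) • b := by
        have h2 : (1 + x • a) * (1 + x • b) = 1 + x • a + x • b + (x ^ 2) • (a * b) := by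
          simp only [Algebra.smul_def, map_pow]
          ring
        rw [h2, ← hrst]
        simp only [Algebra.smul_def, map_mul, map_pow, map_add, map_one]
        ring
      have h3 := hind ((1 + x ^ 2 * r) - (p + q)) ((x + x ^ 2 * s) - p * x)
        ((x + x ^ 2 * t) - q * x) (by
        have : ((1 + x ^ 2 * r) - (p + q)) • (1 : A) + ((x + x ^ 2 * s) - p * x) • a
            + ((x + x ^ 2 * t) - q * x) • b
            = ((1 + x ^ 2 * r) • (1 : A) + (x + x ^ 2 * s) • a + (x + x ^ 2 * t) • b)
              - (p • (1 + x • a) + q • (1 + x • b)) := by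
          simp only [Algebra.smul_def, map_mul, map_pow, map_add, map_one, map_sub]
          ring
        rw [this, ← h1, hpq, sub_self])
      obtain ⟨e1, e2, e3⟩ := h3
      have e4 : x * (1 + x * s - p) = 0 := by linear_combination e2
      have e5 : x * (1 + x * t - q) = 0 := by linear_combination e3
      have e6 : 1 + x * s - p = 0 := (mul_eq_zero.1 e4).resolve_left hx0
      have e7 : 1 + x * t - q = 0 := (mul_eq_zero.1 e5).resolve_left hx0
      apply hx1
      linear_combination e1 - e6 - e7
  · have hab : Submodule.span k {a, b} ≤ Submodule.span k {1, a, b} :=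
      Submodule.span_mono (Set.subset_insert _ _)
    refine ⟨a, b, ?_, ?_, fun h0 => h (hab h0)⟩
    · rintro rfl
      exact ha (Submodule.zero_mem _)
    · intro h0
      obtain ⟨p, hp⟩ := Submodule.mem_span_singleton.1 h0
      have := hind 0 p (-1) (by rw [zero_smul, zero_add, hp, neg_smul, one_smul, add_neg_cancel])
      exact one_ne_zero (neg_eq_zero.1 this.2.2)

/-- some basis satisfies `w l = w i * w j` -/
theorem exists_special [Infinite k] [Module.Finite k A] {d : ℕ} (hd : finrank k A = d)
    (i j l : Fin d) : ∃ w : Basis (Fin d) k A, w l = w i * w j := by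
  classical
  have hd0 : 0 < d := lt_of_le_of_lt (Nat.zero_le _) l.2
  have : Nontrivial A := Module.nontrivial_of_finrank_pos (R := k) (by omega)
  have hone : ∀ p : Fin d, ∃ w : Basis (Fin d) k A, w p = 1 := by
    intro p
    obtain ⟨w, hw⟩ := exists_basis_extend hd {p} (fun _ => (1 : A))
      (LinearIndepOn.singleton one_ne_zero)
    exact ⟨w, hw p rfl⟩
  by_cases hij : i = j
  · subst hij
    by_cases hil : l = i
    · subst hil
      obtain ⟨w, hw⟩ := hone l
      exact ⟨w, by rw [hw, one_mul]⟩
    · have h2 : 2 ≤ finrank k A := by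
        rw [hd]
        have h3 : (i : ℕ) ≠ l := fun h => hil (Fin.ext h.symm)
        omega
      obtain ⟨u, hu0, hu⟩ := exists_sq (k := k) (A := A) h2
      obtain ⟨w, hw⟩ := exists_basis_extend hd {l, i} (fun p => if p = i then u else u * u) (by
        rw [linearIndepOn_insert (by simpa using hil)]
        refine ⟨LinearIndepOn.singleton (by simpa using hu0), ?_⟩
        rw [Set.image_singleton, if_pos rfl, if_neg hil]
        exact hu)
      have h3 := hw i (by simp)
      have h4 := hw l (by simp)
      rw [if_pos rfl] at h3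
      rw [if_neg hil] at h4
      exact ⟨w, by rw [h3, h4]⟩
  · by_cases hil : l = i
    · subst hil
      obtain ⟨w, hw⟩ := hone j
      exact ⟨w, by rw [hw, mul_one]⟩
    · by_cases hjl : l = j
      · subst hjl
        obtain ⟨w, hw⟩ := hone i
        exact ⟨w, by rw [hw, one_mul]⟩
      · have h2 : 3 ≤ finrank k A := by
          rw [hd]
          have h3 : (i : ℕ) ≠ l := fun h => hil (Fin.ext h.symm)
          have h4 : (j : ℕ) ≠ l := fun h => hjl (Fin.ext h.symm)
          have h5 : (i : ℕ) ≠ j := fun h => hij (Fin.ext h)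
          omega
        obtain ⟨u, v, hu0, hv, huv⟩ := exists_pair (k := k) (A := A) h2
        obtain ⟨w, hw⟩ := exists_basis_extend hd {l, j, i}
          (fun p => if p = i then u else if p = j then v else u * v) (by
          rw [linearIndepOn_insert (by simp [hil, hjl])]
          constructor
          · rw [linearIndepOn_insert (by simpa using Ne.symm hij)]
            refine ⟨LinearIndepOn.singleton (by simpa using hu0), ?_⟩
            rw [Set.image_singleton, if_pos rfl, if_neg (Ne.symm hij), if_pos rfl]
            exact hv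
          · rw [Set.image_pair, if_pos rfl, if_neg hil, if_neg hjl, if_neg (Ne.symm hij), if_pos rfl,
              Set.pair_comm]
            exact huv)
        have h3 := hw i (by simp)
        have h4 := hw l (by simp)
        have h5 := hw j (by simp)
        rw [if_pos rfl] at h3
        rw [if_neg hil, if_neg hjl] at h4
        rw [if_neg (Ne.symm hij), if_pos rfl] at h5
        exact ⟨w, by rw [h3, h4, h5]⟩

theorem gpoly_ne_zero [Infinite k] [Module.Finite k A] {d : ℕ} (b : Basis (Fin d) k A)
    (i j l : Fin d) : gpoly b i j l ≠ 0 := by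
  classical
  have hd : finrank k A = d := by rw [finrank_eq_card_basis b, Fintype.card_fin]
  obtain ⟨w, hw⟩ := exists_special (k := k) (A := A) hd i j l
  intro h0
  have h1 := gpoly_eval b i j l (fun p => b.repr (w p.2) p.1)
  have h2 : tup b (fun p => b.repr (w p.2) p.1) = w := by
    ext m
    exact b.sum_repr (w m)
  rw [h0, map_zero, h2, ← hw, Function.update_eq_self] at h1
  exact (b.isUnit_det w).ne_zero h1.symm

theorem exists_eval_ne {σ : Type*} [Infinite k] (p : MvPolynomial σ k) (hp : p ≠ 0) :
    ∃ M : σ → k, MvPolynomial.eval M p ≠ 0 := by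
  by_contra hcon
  push Not at hcon
  exact hp (MvPolynomial.funext fun x => by rw [hcon x, map_zero])

/-- a basis all of whose structure constants are nonzero -/
theorem exists_generic [Infinite k] [Module.Finite k A] :
    ∃ v : Basis (Fin (finrank k A)) k A, ∀ i j l, v.repr (v i * v j) l ≠ 0 := by
  classical
  let b := finBasis k A
  let D : MvPolynomial (Fin (finrank k A) × Fin (finrank k A)) k :=
    (Matrix.of fun r m : Fin (finrank k A) => MvPolynomial.X (r, m)).det
  have hD : ∀ M, MvPolynomial.eval M D = b.det (tup b M) := by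
    intro M
    simp only [D]
    rw [RingHom.map_det, Basis.det_apply]
    congr 1
    ext r m
    rw [RingHom.mapMatrix_apply, Matrix.map_apply, Matrix.of_apply, Basis.toMatrix_apply,
      MvPolynomial.eval_X]
    simp [tup, Finsupp.single_apply]
  have hD0 : D ≠ 0 := by
    intro h0
    have h1 := hD (fun p => b.repr (b p.2) p.1)
    have h2 : tup b (fun p => b.repr (b p.2) p.1) = b := by
      ext m
      exact b.sum_repr (b m)
    rw [h0, map_zero, h2, b.det_self] at h1
    exact zero_ne_one h1
  obtain ⟨M, hM⟩ := exists_eval_ne (D * ∏ p : Fin (finrank k A) × Fin (finrank k A) ×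
    Fin (finrank k A), gpoly b p.1 p.2.1 p.2.2) (mul_ne_zero hD0
      (Finset.prod_ne_zero_iff.2 fun p _ => gpoly_ne_zero b _ _ _))
  rw [map_mul, map_prod] at hM
  have hM1 := left_ne_zero_of_mul hM
  have hM2 := Finset.prod_ne_zero_iff.1 (right_ne_zero_of_mul hM)
  rw [hD] at hM1
  have hbas := (Basis.is_basis_iff_det b).2 (isUnit_iff_ne_zero.2 hM1)
  refine ⟨Basis.mk hbas.1 hbas.2.ge, fun i j l h0 => ?_⟩
  have h1 := hM2 (i, j, l) (Finset.mem_univ _)
  apply h1
  simp only
  rw [gpoly_eval]
  set v := Basis.mk hbas.1 hbas.2.ge with hv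
  have hvc : tup b M = v := by rw [hv, Basis.coe_mk]
  rw [hvc, ← v.sum_repr (v i * v j), AlternatingMap.map_update_sum]
  apply Finset.sum_eq_zero
  intro m _
  rw [AlternatingMap.map_update_smul]
  by_cases hm : m = l
  · subst hm
    rw [h0, zero_smul]
  · rw [AlternatingMap.map_update_self _ _ (Ne.symm hm), smul_zero]

end Field

end Pool.Agent.Helper442_AD
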