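import Mathlib

set_option autoImplicit false

open Module PowerSeries

namespace Pool.Agent.Helper442_AD

section Lift

variable {k : Type*} [Field k] {A : Type*} [CommRing A] [Algebra k A]
  {R : Type*} [CommRing R] [Algebra k⟦X⟧ R]

/-- `p` is a surjection onto `A`, semilinear over the constant coefficient, with kernel `t R` -/
structure IsSpec (p : R →+* A) : Prop where
  surj : Function.Surjective p
  lin : ∀ f : k⟦X⟧, p (algebraMap k⟦X⟧ R f) = algebraMap k A (constantCoeff f)
  ker : ∀ a : R, p a = 0 → ∃ b : R, a = algebraMap k⟦X⟧ R X * b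

variable {p : R →+* A}

theorem IsSpec.smul (hp : IsSpec (k := k) p) (f : k⟦X⟧) (a : R) :
    p (f • a) = constantCoeff f • p a := by
  rw [Algebra.smul_def, map_mul, hp.lin, Algebra.smul_def]

theorem lift_span [Module.Finite k⟦X⟧ R] (hp : IsSpec (k := k) p) {ι : Type*} [Fintype ι]
    (v : Basis ι k A) (e : ι → R) (he : ∀ i, p (e i) = v i) :
    (⊤ : Submodule k⟦X⟧ R) ≤ Submodule.span k⟦X⟧ (Set.range e) := by
  apply Submodule.le_of_le_smul_of_le_jacobson_bot (I := Ideal.span {(X : k⟦X⟧)})
    (Module.Finite.fg_top)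
  · rw [IsLocalRing.jacobson_eq_maximalIdeal _ bot_ne_top]
    rw [Ideal.span_singleton_le_iff_mem, IsLocalRing.mem_maximalIdeal, mem_nonunits_iff,
      PowerSeries.isUnit_iff_constantCoeff]
    simp
  · intro a _
    have h1 : p (a - ∑ i, (C (v.repr (p a) i) : k⟦X⟧) • e i) = 0 := by
      rw [map_sub, map_sum, sub_eq_zero]
      rw [Finset.sum_congr rfl fun i _ => hp.smul _ _]
      simp only [constantCoeff_C, he]
      exact (v.sum_repr (p a)).symm
    obtain ⟨b, hb⟩ := hp.ker _ h1
    have h2 : a = (∑ i, (C (v.repr (p a) i) : k⟦X⟧) • e i) + (X : k⟦X⟧) • b := by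
      rw [Algebra.smul_def (X : k⟦X⟧) b, ← hb]
      abel
    rw [h2]
    apply Submodule.add_mem_sup
    · exact Submodule.sum_mem _ fun i _ => Submodule.smul_mem _ _
        (Submodule.subset_span (Set.mem_range_self i))
    · exact Submodule.smul_mem_smul (Ideal.mem_span_singleton_self _) Submodule.mem_top

theorem lift_indep [Module.Flat k⟦X⟧ R] (hp : IsSpec (k := k) p) {ι : Type*} [Fintype ι]
    (v : Basis ι k A) (e : ι → R) (he : ∀ i, p (e i) = v i) :
    LinearIndependent k⟦X⟧ e := by
  have htf : ∀ a : R, (X : k⟦X⟧) • a = 0 → a = 0 := by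
    intro a ha
    have h1 := Module.Flat.isSMulRegular_of_nonZeroDivisors (M := R)
      (mem_nonZeroDivisors_of_ne_zero (X_ne_zero (R := k)))
    exact h1 (by simpa using ha)
  have key : ∀ (n : ℕ) (r : ι → k⟦X⟧), ∑ i, r i • e i = 0 → ∀ i, coeff n (r i) = 0 := by
    intro n
    induction n with
    | zero =>
      intro r hr i
      have h1 := congrArg p hr
      rw [map_sum, map_zero, Finset.sum_congr rfl fun i _ => hp.smul _ _] at h1
      simp only [he] at h1
      have h2 := Fintype.linearIndependent_iff.1 v.linearIndependent _ h1 i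
      rw [coeff_zero_eq_constantCoeff_apply]
      exact h2
    | succ n ih =>
      intro r hr
      have h1 : ∀ i, constantCoeff (r i) = 0 := by
        have h1 := congrArg p hr
        rw [map_sum, map_zero, Finset.sum_congr rfl fun i _ => hp.smul _ _] at h1
        simp only [he] at h1
        exact Fintype.linearIndependent_iff.1 v.linearIndependent _ h1
      have h2 : ∀ i, ∃ s : k⟦X⟧, r i = X * s := fun i => X_dvd_iff.2 (h1 i)
      choose s hs using h2
      have h3 : (X : k⟦X⟧) • ∑ i, s i • e i = 0 := by
        rw [Finset.smul_sum, ← hr]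
        exact Finset.sum_congr rfl fun i _ => by rw [hs i, mul_smul]
      have h4 := ih s (htf _ h3)
      intro i
      rw [hs i, coeff_succ_X_mul]
      exact h4 i
  rw [Fintype.linearIndependent_iff]
  intro r hr i
  ext n
  rw [key n r hr i, map_zero]

/-- a basis of the special fibre lifts to a basis -/
theorem lift_basis [Module.Finite k⟦X⟧ R] [Module.Flat k⟦X⟧ R] (hp : IsSpec (k := k) p)
    {ι : Type*} [Fintype ι] (v : Basis ι k A) : ∃ e : Basis ι k⟦X⟧ R, ∀ i, p (e i) = v i := by
  choose e he using fun i => hp.surj (v i)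
  refine ⟨Basis.mk (lift_indep hp v e he) (lift_span hp v e he), fun i => ?_⟩
  rw [Basis.mk_apply, he]

/-- the coordinates reduce to the coordinates in the special fibre -/
theorem lift_repr (hp : IsSpec (k := k) p) {ι : Type*} [Fintype ι] (v : Basis ι k A)
    (e : Basis ι k⟦X⟧ R) (he : ∀ i, p (e i) = v i) (y : R) (l : ι) :
    constantCoeff (e.repr y l) = v.repr (p y) l := by
  classical
  have h1 : p y = ∑ i, constantCoeff (e.repr y i) • v i := by
    conv_lhs => rw [← e.sum_repr y]
    rw [map_sum, Finset.sum_congr rfl fun i _ => hp.smul _ _]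
    simp only [he]
  rw [h1]
  simp [Finsupp.single_apply]

/-- the structure constants reduce to the structure constants of the special fibre -/
theorem lift_const (hp : IsSpec (k := k) p) {ι : Type*} [Fintype ι] (v : Basis ι k A)
    (e : Basis ι k⟦X⟧ R) (he : ∀ i, p (e i) = v i) (i j l : ι) :
    constantCoeff (e.repr (e i * e j) l) = v.repr (v i * v j) l := by
  rw [lift_repr hp v e he, map_mul, he, he]

end Lift

end Pool.Agent.Helper442_AD
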